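import Pool.Agent.MP_824cb5_co.Ev.Main

namespace Pool.Agent.Results.MP_824cb5_co.EvenOrderTwo

open Pool.Agent.MP_824cb5_co

theorem result (G : Type) [AddCommGroup G] [Finite G] (m : ℕ) (hm : 1 ≤ m)
    (he : Even (Nat.card G))
    (hn : (Nat.card G : ℝ) < 2 * (m : ℝ) ^ 2 +
      max (2 * (1 + (Nat.card {x : G // addOrderOf x = 2} : ℝ)))
        (if 3 ∣ m then √(2 * (m : ℝ) / 3) - 1 else ((m : ℝ) - 6) / 9)) :
    m ≤ sigmaPM G 2 ↔ (m = 2 ∧ Nonempty (G ≃+ ZMod 10)) ∨ (m = 4 ∧ Nonempty (G ≃+ ZMod 34)) ∨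
      (m = 4 ∧ Nonempty (G ≃+ ZMod 6 × ZMod 6)) :=
  Ev.main hm he hn

end Pool.Agent.Results.MP_824cb5_co.EvenOrderTwo
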