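import Pool.Agent.Mg.F824cb5.G2c888d

namespace Pool.Agent.Results.MP_824cb5_co.ThreeLeastOrder

open Pool.Agent.MP_824cb5_co

theorem result (k : ℕ) (r : Fin 6) (hh : 2 ≤ 6 * k + r) :
    IsLeast {n : ℕ | ∃ (G : Type) (_ : AddCommGroup G) (_ : Finite G),
        Nat.card G = n ∧ 3 ≤ sigmaPM G (6 * k + r)}
      (152 * k ^ 3 + ![76, 160, 228, 312, 380, 464] r * k ^ 2 +
        ![14, 58, 114, 214, 318, 470] r * k + ![1, 7, 19, 49, 89, 159] r) :=
  T3.least k r hh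

end Pool.Agent.Results.MP_824cb5_co.ThreeLeastOrder
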