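import Pool.Agent.Mg.F824cb5.Gcc9ee9

namespace Pool.Agent.Results.MP_824cb5_co.Threshold

open Pool.Agent.MP_824cb5_co

theorem result (m : ℕ) (ε : ℝ) (hε : 0 < ε) :
    ∃ T₀ : ℕ, ∀ (G : Type) [AddCommGroup G] (r : ℕ) (n : Fin (r + (m + 2)) → ℕ) (d : ℕ)
      (t : Fin (m + 2) → ℕ) (h s T : ℕ), (∀ i, 0 < n i) → (∀ i j, i ≤ j → n i ∣ n j) →
      Nonempty (G ≃+ Π i, ZMod (n i)) → (∀ i, n (Fin.natAdd r i) = d * t i) → t 0 = 1 → 1 ≤ h →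
      s = (if Odd d then 2 * (h / d + 1) else 2 * h / d + 1) →
      T = (if Odd d then 2 else 1) * ∏ i, t i →
      (m + 2 ≤ sigmaPM G h → critDet (m + 2) * (s : ℝ) ^ (m + 2) ≤ T) ∧
        (T₀ ≤ T → (critDet (m + 2) + ε) * (s : ℝ) ^ (m + 2) ≤ T → m + 2 ≤ sigmaPM G h) :=
  AS.threshold m ε hε

end Pool.Agent.Results.MP_824cb5_co.Threshold
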