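import Pool.Agent.Mg.F824cb5.G65c7b8

namespace Pool.Agent.Results.MP_824cb5_co.TwoElements

open Pool.Agent.MP_824cb5_co

theorem result (h : ℕ) (hh : 1 ≤ h) (G : Type) [AddCommGroup G] (r : ℕ)
    (n : Fin (r + 2) → ℕ) (hpos : ∀ i, 0 < n i) (hdvd : ∀ i j, i ≤ j → n i ∣ n j)
    (e : G ≃+ (Π i, ZMod (n i))) (d t : ℕ)
    (hd : n (Fin.castSucc (Fin.last r)) = d) (ht : n (Fin.last (r + 1)) = d * t) :
    2 ≤ sigmaPM G h ↔
      if Odd d then
        (h / d + 1) ^ 2 ≤ t ∧ (Even t → Even (h / d + 1) → (h / d + 1) * (h / d + 1 + 1) ≤ t)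
      else
        (2 * h / d + 1) ^ 2 ≤ 2 * t ∧ (Even (2 * h / d + 1) →
          (2 * h / d + 1) * (2 * h / d + 1 + 1) ≤ 2 * t ∨
            (Even t ∧ (4 ∣ t → 4 ∣ 2 * h / d + 1))) :=
  classification h hh G r n hpos hdvd e d t hd ht

end Pool.Agent.Results.MP_824cb5_co.TwoElements
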